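import Mathlib
import Pool.Agent.H.MP_7425ae_nt.Final
import Pool.Agent.H.MP_7425ae_nt.helper61.Rep

/-!
The three assertions on the numbers `S(p)`, `T(p)` and `a_n`, in the wording of the problem
(rational sums, congruences in the ring of `p`-integral rational numbers).
-/

set_option autoImplicit false

open Finset

namespace Pool.Agent.Results.MP_7425ae_nt.ThreeAssertions

/-! ### The notions of the problem -/

/-- `c k` is the integer `binom(6k, 3k) (3k)! / (k!) ^ 3`. -/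
def c (k : ℕ) : ℕ := (6 * k).choose (3 * k) * ((3 * k).factorial / k.factorial ^ 3)

/-- The rational number `S(p)`. -/
def S (p : ℕ) : ℚ := ∑ k ∈ range p, (c k : ℚ) / (-96) ^ (3 * k)

/-- The rational number `T(p)`. -/
def T (p : ℕ) : ℚ := ∑ k ∈ range p, ((342 * k + 25) * c k : ℚ) / (-96) ^ (3 * k)

/-- The rational number `a_n`. -/
def a (n : ℕ) : ℚ := 1 / ((2 * n * (2 * n + 1) * (2 * n).choose n : ℕ) : ℚ) *
  ∑ k ∈ range n, ((342 * k + 25) * (-96 ^ 3) ^ (n - 1 - k) * c k : ℚ)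

/-- `x ≡ y` modulo `p ^ m` in the ring of rational numbers with denominator prime to `p`:
`x - y = p ^ m z` for a rational number `z` whose denominator is not divisible by `p`. -/
def CongMod (p m : ℕ) (x y : ℚ) : Prop :=
  ∃ z : ℚ, ¬ p ∣ z.den ∧ x - y = (p : ℚ) ^ m * z

/-! ### The translation -/

theorem c_eq (k : ℕ) : c k = (6 * k).choose (3 * k) * (3 * k).choose k * (2 * k).choose k := by
  have h1 : (3 * k).choose k * k.factorial * (3 * k - k).factorial = (3 * k).factorial :=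
    Nat.choose_mul_factorial_mul_factorial (by omega)
  have h2 : (2 * k).choose k * k.factorial * (2 * k - k).factorial = (2 * k).factorial :=
    Nat.choose_mul_factorial_mul_factorial (by omega)
  have e1 : 3 * k - k = 2 * k := by omega
  have e2 : 2 * k - k = k := by omega
  rw [e1] at h1
  rw [e2] at h2
  have h3 : (3 * k).factorial = ((3 * k).choose k * (2 * k).choose k) * k.factorial ^ 3 := by
    rw [← h1, ← h2]
    ring
  have h4 : (3 * k).factorial / k.factorial ^ 3 = (3 * k).choose k * (2 * k).choose k := by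
    rw [h3]
    exact Nat.mul_div_cancel _ (pow_pos k.factorial_pos 3)
  rw [c, h4, mul_assoc]

/-- A congruence between residue classes gives a congruence between rational numbers. -/
theorem conv (p m N : ℕ) (hp : p.Prime) (h3 : 3 < p) (d : ℕ → ℤ) (r : ℤ)
    (h : (∑ k ∈ range N, ((d k : ℤ) : ZMod (p ^ m)) * ((-96 : ZMod (p ^ m)) ^ (3 * k))⁻¹) =
      ((r : ℤ) : ZMod (p ^ m))) :
    CongMod p m (∑ k ∈ range N, (d k : ℚ) / (-96) ^ (3 * k)) r := by
  have hcop : Nat.Coprime p 96 := by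
    have := Pool.Agent.H.MP_7425ae_nt.final_cop p 1 hp h3
    rwa [pow_one] at this
  have hu : IsUnit (-96 : ZMod (p ^ m)) := by
    have h1 : IsUnit ((96 : ℕ) : ZMod (p ^ m)) :=
      (ZMod.isUnit_iff_coprime _ _).2 (Nat.Coprime.pow_right m hcop.symm)
    have h2 : (-96 : ZMod (p ^ m)) = -((96 : ℕ) : ZMod (p ^ m)) := by push_cast; rfl
    rw [h2]
    exact h1.neg
  obtain ⟨A, hA⟩ : ∃ A : ℤ, A = ∑ k ∈ range N, d k * (-96) ^ (3 * N - 3 * k) := ⟨_, rfl⟩
  have hAz : ((A : ℤ) : ZMod (p ^ m)) = (((-96) ^ (3 * N) * r : ℤ) : ZMod (p ^ m)) := by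
    rw [hA]
    push_cast
    rw [← h, mul_sum]
    apply sum_congr rfl
    intro k hk
    rw [mem_range] at hk
    have e : 3 * N = (3 * N - 3 * k) + 3 * k := by omega
    have e2 : ((-96 : ZMod (p ^ m)) ^ (3 * k)) * ((-96 : ZMod (p ^ m)) ^ (3 * k))⁻¹ = 1 :=
      ZMod.mul_inv_of_unit _ (hu.pow _)
    have e3 : (-96 : ZMod (p ^ m)) ^ (3 * N) = (-96) ^ (3 * N - 3 * k) * (-96) ^ (3 * k) := by
      rw [← pow_add, ← e]
    rw [e3]
    linear_combination (-(d k : ZMod (p ^ m)) * (-96) ^ (3 * N - 3 * k)) * e2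
  have hdvd : ((p ^ m : ℕ) : ℤ) ∣ A - (-96) ^ (3 * N) * r := by
    rw [← ZMod.intCast_eq_intCast_iff_dvd_sub]
    exact hAz.symm
  obtain ⟨w, hw⟩ := hdvd
  have hB : ((-96 : ℚ) ^ (3 * N)) ≠ 0 := pow_ne_zero _ (by norm_num)
  refine ⟨(w : ℚ) / (((-96) ^ (3 * N) : ℤ) : ℚ), ?_, ?_⟩
  · intro hd
    have h1 : (((w : ℚ) / (((-96) ^ (3 * N) : ℤ) : ℚ)).den : ℤ) ∣ (-96) ^ (3 * N) := by
      rw [← Rat.divInt_eq_div]
      exact Rat.den_dvd _ _
    have h2 : (p : ℤ) ∣ (-96) ^ (3 * N) := (Int.natCast_dvd_natCast.2 hd).trans h1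
    have h4 : (p : ℤ) ∣ -96 := (Nat.prime_iff_prime_int.1 hp).dvd_of_dvd_pow h2
    have h5 : p ∣ 96 := by
      rw [dvd_neg] at h4
      exact_mod_cast h4
    exact (hp.coprime_iff_not_dvd.1 hcop) h5
  · have hsum : (∑ k ∈ range N, (d k : ℚ) / (-96) ^ (3 * k)) = (A : ℚ) / (-96) ^ (3 * N) := by
      rw [hA, eq_div_iff hB, sum_mul]
      push_cast
      apply sum_congr rfl
      intro k hk
      rw [mem_range] at hk
      have e : 3 * N = (3 * N - 3 * k) + 3 * k := by omega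
      have e3 : (-96 : ℚ) ^ (3 * N) = (-96) ^ (3 * N - 3 * k) * (-96) ^ (3 * k) := by
        rw [← pow_add, ← e]
      have e4 : ((-96 : ℚ) ^ (3 * k)) ≠ 0 := pow_ne_zero _ (by norm_num)
      rw [e3]
      field_simp
    have hwq : (A : ℚ) - (-96) ^ (3 * N) * r = (p : ℚ) ^ m * w := by
      exact_mod_cast hw
    rw [hsum]
    push_cast
    rw [mul_div_assoc', ← hwq]
    field_simp

theorem S_eq (p : ℕ) : S p = ∑ k ∈ range p,
    (((((6 * k).choose (3 * k) * (3 * k).choose k * (2 * k).choose k : ℕ) : ℤ)) : ℚ) /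
      (-96) ^ (3 * k) := by
  unfold S
  apply sum_congr rfl
  intro k _
  rw [c_eq]
  push_cast
  rfl

theorem T_eq (p : ℕ) : T p = ∑ k ∈ range p,
    (((((342 * k + 25 : ℕ) * ((6 * k).choose (3 * k) * (3 * k).choose k * (2 * k).choose k) : ℕ) :
      ℤ)) : ℚ) / (-96) ^ (3 * k) := by
  unfold T
  apply sum_congr rfl
  intro k _
  rw [c_eq]
  push_cast
  rfl

theorem a_eq (n : ℕ) : a n =
    ((∑ k ∈ Finset.range n, ((342 * (k : ℤ) + 25) * (-(96 : ℤ) ^ 3) ^ (n - 1 - k) *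
      (((6 * k).choose (3 * k) * (3 * k).choose k * (2 * k).choose k : ℕ) : ℤ)) : ℤ) : ℚ) /
    ((2 * n * (2 * n + 1) * (2 * n).choose n : ℕ) : ℚ) := by
  unfold a
  rw [one_div, inv_mul_eq_div]
  push_cast
  congr 1
  apply sum_congr rfl
  intro k _
  rw [c_eq]
  push_cast
  rfl

/-- **The three assertions.** (a) For primes `p > 3` with `(p/19) = 1` the equation
`4p = x² + 19y²` is solvable and `S(p) ≡ (-6/p)(x² - 2p)` modulo `p²` for every solution; if
`(p/19) = -1`, then `S(p) ≡ 0` modulo `p²`.  (b) `T(p) ≡ 25p (-6/p)` modulo `p³` for every prime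
`p > 3`.  (c) For `n ≥ 2` the number `a_n` is an integer if `2n + 1` is not a power of `3`, and
`3 a_n` is an integer not divisible by `3` if `2n + 1` is a power of `3`. -/
theorem result :
    (∀ p : ℕ, p.Prime → 3 < p →
      (jacobiSym p 19 = 1 →
        (∃ x y : ℤ, 4 * (p : ℤ) = x ^ 2 + 19 * y ^ 2) ∧
        ∀ x y : ℤ, 4 * (p : ℤ) = x ^ 2 + 19 * y ^ 2 →
          CongMod p 2 (S p) (jacobiSym (-6) p * (x ^ 2 - 2 * p))) ∧
      (jacobiSym p 19 = -1 → CongMod p 2 (S p) 0)) ∧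
    (∀ p : ℕ, p.Prime → 3 < p → CongMod p 3 (T p) (25 * p * jacobiSym (-6) p)) ∧
    (∀ n : ℕ, 2 ≤ n →
      ((¬ ∃ m : ℕ, 2 * n + 1 = 3 ^ m) → ∃ z : ℤ, a n = z) ∧
      ((∃ m : ℕ, 2 * n + 1 = 3 ^ m) → ∃ z : ℤ, 3 * a n = z ∧ ¬ (3 : ℤ) ∣ z)) := by
  refine ⟨fun p hp h3 => ⟨fun hj => ⟨?_, fun x y hxy => ?_⟩, fun hj => ?_⟩, fun p hp h3 => ?_,
    fun n hn => ⟨fun h => ?_, fun h => ?_⟩⟩
  · have : Fact p.Prime := ⟨hp⟩
    obtain ⟨c, hc⟩ := Pool.Agent.H.MP_7425ae_nt.betas_square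
      (Pool.Agent.H.MP_7425ae_nt.final_five p hp h3) hj
    have hodd : p % 2 = 1 := hp.eq_two_or_odd.resolve_left (by omega)
    obtain ⟨u, hu⟩ := ZMod.intCast_surjective c
    apply Pool.Agent.H.MP_7425ae_nt.Rep.exists_rep p hp.pos hodd u
    rw [← ZMod.intCast_zmod_eq_zero_iff_dvd]
    push_cast
    rw [hu, pow_two, hc]
    norm_num
  · have h := Pool.Agent.H.MP_7425ae_nt.part_a_split p hp h3 hj x y hxy
    have h2 := conv p 2 p hp h3
      (fun k => (((6 * k).choose (3 * k) * (3 * k).choose k * (2 * k).choose k : ℕ) : ℤ))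
      (jacobiSym (-6) p * (x ^ 2 - 2 * (p : ℤ))) (by
        rw [← h]
        apply sum_congr rfl
        intro k _
        rw [Int.cast_natCast])
    rw [← S_eq] at h2
    have e : (((jacobiSym (-6) p * (x ^ 2 - 2 * (p : ℤ)) : ℤ)) : ℚ) =
      jacobiSym (-6) p * (x ^ 2 - 2 * p) := by push_cast; rfl
    rwa [e] at h2
  · have h := Pool.Agent.H.MP_7425ae_nt.part_a_inert p hp h3 hj
    have h2 := conv p 2 p hp h3
      (fun k => (((6 * k).choose (3 * k) * (3 * k).choose k * (2 * k).choose k : ℕ) : ℤ))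
      0 (by
        rw [Int.cast_zero, ← h]
        apply sum_congr rfl
        intro k _
        rw [Int.cast_natCast])
    rw [← S_eq] at h2
    simpa using h2
  · have h := Pool.Agent.H.MP_7425ae_nt.part_b p hp h3
    have h2 := conv p 3 p hp h3
      (fun k => (((342 * k + 25 : ℕ) *
        ((6 * k).choose (3 * k) * (3 * k).choose k * (2 * k).choose k) : ℕ) : ℤ))
      (25 * (p : ℤ) * jacobiSym (-6) p) (by
        rw [← h]
        apply sum_congr rfl
        intro k _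
        rw [Int.cast_natCast, Nat.cast_mul])
    rw [← T_eq] at h2
    have e : (((25 * (p : ℤ) * jacobiSym (-6) p : ℤ)) : ℚ) = 25 * p * jacobiSym (-6) p := by
      push_cast; rfl
    rwa [e] at h2
  · obtain ⟨z, hz⟩ := (Pool.Agent.H.MP_7425ae_nt.c_global
      (fun p _ h5 m hm => Pool.Agent.H.MP_7425ae_nt.part_c_p p h5 m hm) n hn).1 h
    exact ⟨z, by rw [a_eq, hz]⟩
  · obtain ⟨z, hz, hz3⟩ := (Pool.Agent.H.MP_7425ae_nt.c_global
      (fun p _ h5 m hm => Pool.Agent.H.MP_7425ae_nt.part_c_p p h5 m hm) n hn).2 h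
    exact ⟨z, by rw [a_eq, hz], hz3⟩

end Pool.Agent.Results.MP_7425ae_nt.ThreeAssertions
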